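import Pool.Agent.Work.MP_b2345f_al.Free

set_option autoImplicit false

namespace Pool.Agent.Work.MP_b2345f_al

open Lt Monoid

/-! ### The words `c^m t c^n t` -/

lemma ev_nf2 (m n : ℕ) : ev (nf2 m n) = ⟨m + n, m - n, 1⟩ := by
  rw [nf2, ev_append, ev_cons, ev_append, ev_rep _ (by decide), ev_rep _ (by decide)]
  ext
  · simp [val]
  · simp [val]; ring
  · simp [val]

lemma len_nf2 (m n : ℕ) : (nf2 m n).length = m + n + 2 := by simp [nf2]; ring

lemma sl_nf2 (m n : ℕ) (h : m + 3 ≤ n) : IsSL (nf2 m n) := by
  intro w' he
  rw [ev_nf2] at he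
  have hb := abs_u_le w'
  have hu : (ev w').u = m + n := by rw [he]
  have hv : (ev w').v = m - n := by rw [he]
  have hee : (ev w').e = 1 := by rw [he]
  rw [hu, abs_of_nonneg (by positivity)] at hb
  rw [SLle, len_nf2]
  by_cases h0 : nt w' = 0
  · left
    have hs := sub_le w' h0
    rw [hu, hv, abs_of_nonneg (by linarith)] at hs
    omega
  · have h1 : nt w' ≠ 1 := by
      intro h1
      rw [ev_e, h1] at hee
      simp at hee
    rcases lt_or_eq_of_le (show m + n + 2 ≤ w'.length by omega) with hlt | heq
    · exact Or.inl hlt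
    · refine Or.inr ⟨heq, ?_⟩
      have h2 : nt w' = 2 := by omega
      have hov : Ov true w' := letters_u true w' (by simp only [eps]; rw [hu, h2, ← heq]; push_cast; linarith)
      exact lex_two_t w' m n hov h2 hu hv

/-! ### Words in the free product -/

/-- The generating set. -/
def XX : Finset K := Finset.univ.image Lt.val

/-- Letter of an element of the generating set. -/
noncomputable def toLt (x : {x // x ∈ XX}) : Lt :=
  (Finset.mem_image.mp x.2).choose

lemma toLt_spec (x : {x // x ∈ XX}) : (toLt x).val = x.1 :=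
  (Finset.mem_image.mp x.2).choose_spec.2

/-- Element of the generating set of a letter. -/
def ofLt (a : Lt) : {x // x ∈ XX} := ⟨a.val, Finset.mem_image_of_mem _ (Finset.mem_univ a)⟩

@[simp] lemma toLt_ofLt (a : Lt) : toLt (ofLt a) = a := val_injective (toLt_spec _)
@[simp] lemma ofLt_toLt (x : {x // x ∈ XX}) : ofLt (toLt x) = x := Subtype.ext (toLt_spec x)

/-- The order on the generating set. -/
def rr (x y : {x // x ∈ XX}) : Prop := rel (toLt x) (toLt y)

lemma rr_sto : IsStrictTotalOrder {x // x ∈ XX} rr := by
  have hinj : Function.Injective (fun x : {x // x ∈ XX} => rank (toLt x)) := by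
    intro x y h
    have := rank_injective h
    rw [← ofLt_toLt x, ← ofLt_toLt y, this]
  exact RelEmbedding.isStrictTotalOrder
    (⟨⟨fun x => rank (toLt x), hinj⟩, Iff.rfl⟩ : rr ↪r ((· < ·) : ℕ → ℕ → Prop))

lemma map_toLt_map_ofLt (w : List Lt) : (w.map ofLt).map toLt = w := by
  rw [List.map_map]
  have : (toLt ∘ ofLt) = id := by funext a; simp
  rw [this, List.map_id]

lemma map_ofLt_map_toLt (w : List {x // x ∈ XX}) : (w.map toLt).map ofLt = w := by
  rw [List.map_map]
  have : (ofLt ∘ toLt) = id := by funext a; simp
  rw [this, List.map_id]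

lemma prod_val_eq (w : List {x // x ∈ XX}) : (w.map Subtype.val).prod = ev (w.map toLt) := by
  rw [ev, List.map_map]
  congr 1
  apply List.map_congr_left
  intro x _
  exact (toLt_spec x).symm

lemma lex_rr (w w' : List {x // x ∈ XX}) : List.Lex rr w w' ↔ List.Lex rel (w.map toLt) (w'.map toLt) := by
  constructor
  · intro h
    induction h with
    | nil => exact List.Lex.nil
    | cons _ ih => exact List.Lex.cons ih
    | rel h => exact List.Lex.rel h
  · intro h
    generalize hv : w.map toLt = v at h
    generalize hv' : w'.map toLt = v' at h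
    induction h generalizing w w' with
    | nil =>
      cases w with
      | nil =>
        cases w' with
        | nil => simp at hv'
        | cons a' w' => exact List.Lex.nil
      | cons a w => simp at hv
    | cons _ ih =>
      cases w with
      | nil => simp at hv
      | cons a w =>
        cases w' with
        | nil => simp at hv'
        | cons a' w' =>
          simp only [List.map_cons, List.cons.injEq] at hv hv'
          have : a = a' := by rw [← ofLt_toLt a, ← ofLt_toLt a', hv.1, hv'.1]
          subst this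
          exact List.Lex.cons (ih w w' hv.2 hv'.2)
    | rel h =>
      cases w with
      | nil => simp at hv
      | cons a w =>
        cases w' with
        | nil => simp at hv'
        | cons a' w' =>
          simp only [List.map_cons, List.cons.injEq] at hv hv'
          apply List.Lex.rel
          rw [rr, hv.1, hv'.1]
          exact h

/-- The automaton for one factor. -/
noncomputable def MM : DFA {x // x ∈ XX} St where
  step q a := step q (toLt a)
  start := St.st
  accept := {q | q ≠ St.dead}

lemma MM_accepts (w : List {x // x ∈ XX}) : w ∈ MM.accepts ↔ acc St.st (w.map toLt) := by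
  rw [DFA.mem_accepts]
  change MM.eval w ≠ St.dead ↔ _
  rw [acc, DFA.eval, DFA.evalFrom, List.foldl_map]
  rfl

theorem factor_regular (w : List {x // x ∈ XX}) : w ∈ MM.accepts ↔
    ((∀ w' : List {x // x ∈ XX},
        (w'.map Subtype.val).prod = (w.map Subtype.val).prod →
          w.length < w'.length ∨
            (w.length = w'.length ∧ (w = w' ∨ List.Lex rr w w'))) ∧
      ∀ w' : List {x // x ∈ XX},
        IsConj (w.map Subtype.val).prod (w'.map Subtype.val).prod →
          w.length ≤ w'.length) := by
  rw [MM_accepts, acc_iff]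
  constructor
  · rintro ⟨h1, h2⟩
    constructor
    · intro w' he
      rw [prod_val_eq, prod_val_eq] at he
      have := h1 _ he
      rw [SLle] at this
      simp only [List.length_map] at this
      rcases this with h | ⟨h, h' | h'⟩
      · exact Or.inl h
      · refine Or.inr ⟨h, Or.inl ?_⟩
        rw [← map_ofLt_map_toLt w, h', map_ofLt_map_toLt]
      · exact Or.inr ⟨h, Or.inr ((lex_rr w w').mpr h')⟩
    · intro w' hc
      rw [prod_val_eq, prod_val_eq] at hc
      have := h2 _ hc
      simpa using this
  · rintro ⟨h1, h2⟩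
    constructor
    · intro w' he
      have := h1 (w'.map ofLt) (by rw [prod_val_eq, prod_val_eq, map_toLt_map_ofLt]; exact he)
      rw [SLle]
      simp only [List.length_map] at this ⊢
      rcases this with h | ⟨h, h' | h'⟩
      · exact Or.inl h
      · refine Or.inr ⟨h, Or.inl ?_⟩
        rw [h', map_toLt_map_ofLt]
      · refine Or.inr ⟨h, Or.inr ?_⟩
        rw [lex_rr, map_toLt_map_ofLt] at h'
        exact h'
    · intro w' hc
      have := h2 (w'.map ofLt) (by rw [prod_val_eq, prod_val_eq, map_toLt_map_ofLt]; exact hc)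
      simpa using this

lemma XX_inv : ∀ x ∈ XX, x⁻¹ ∈ XX := by
  intro x hx
  obtain ⟨a, _, rfl⟩ := Finset.mem_image.mp hx
  cases a
  case c => exact Finset.mem_image.mpr ⟨C, Finset.mem_univ _, by ext <;> simp [val]⟩
  case C => exact Finset.mem_image.mpr ⟨c, Finset.mem_univ _, by ext <;> simp [val]⟩
  case d => exact Finset.mem_image.mpr ⟨D, Finset.mem_univ _, by ext <;> simp [val]⟩
  case D => exact Finset.mem_image.mpr ⟨d, Finset.mem_univ _, by ext <;> simp [val]⟩
  case b => exact Finset.mem_image.mpr ⟨B, Finset.mem_univ _, by ext <;> simp [val]⟩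
  case B => exact Finset.mem_image.mpr ⟨b, Finset.mem_univ _, by ext <;> simp [val]⟩
  case t => exact Finset.mem_image.mpr ⟨t, Finset.mem_univ _, by ext <;> simp [val]⟩

lemma XX_gen : Subgroup.closure ((XX : Finset K) : Set K) = ⊤ := by
  rw [eq_top_iff]
  intro k _
  obtain ⟨w, rfl⟩ := exists_word k
  apply Subgroup.list_prod_mem
  intro x hx
  obtain ⟨a, _, rfl⟩ := List.mem_map.mp hx
  apply Subgroup.subset_closure
  exact Finset.mem_coe.mpr (Finset.mem_image_of_mem _ (Finset.mem_univ a))

/-- Letters of the free product. -/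
abbrev SS : Type := Σ _ : Fin 2, {x // x ∈ XX}

/-- Evaluation in the free product. -/
def evF (w : List SS) : FF := (w.map (fun s : SS => CoprodI.of (M := GG) (i := s.1) s.2.1)).prod

@[simp] lemma evF_nil : evF [] = 1 := rfl
@[simp] lemma evF_cons (x : SS) (w : List SS) :
    evF (x :: w) = CoprodI.of (M := GG) (i := x.1) x.2.1 * evF w := by simp [evF]
@[simp] lemma evF_append (w w' : List SS) : evF (w ++ w') = evF w * evF w' := by simp [evF]

/-- Embedding of letters. -/
def io (i : Fin 2) (a : Lt) : SS := ⟨i, ofLt a⟩

lemma evF_io (i : Fin 2) (w : List Lt) : evF (w.map (io i)) = CoprodI.of (M := GG) (i := i) (ev w) := by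
  induction w with
  | nil => simp
  | cons a w ih =>
    rw [List.map_cons, evF_cons, ih, ev_cons, map_mul]
    rfl

lemma LL_evF_le (w : List SS) : LL (evF w) ≤ w.length := by
  induction w with
  | nil => simp [LL_one]
  | cons a w ih =>
    rw [evF_cons]
    have h1 := LL_of_mul a.1 a.2.1 (evF w)
    have h2 : wl a.2.1 ≤ 1 := by rw [← toLt_spec]; exact wl_val _
    rw [List.length_cons]
    omega

/-- Retraction onto the `i`-th factor. -/
def psi (i : Fin 2) : FF →* K := CoprodI.lift (fun j => if j = i then MonoidHom.id K else 1)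

/-- The subword of letters from the `i`-th factor. -/
noncomputable def sub (i : Fin 2) : List SS → List Lt
  | [] => []
  | s :: w => if s.1 = i then toLt s.2 :: sub i w else sub i w

lemma psi_evF (i : Fin 2) (w : List SS) : psi i (evF w) = ev (sub i w) := by
  induction w with
  | nil => simp [sub]
  | cons s w ih =>
    rw [evF_cons, map_mul, ih]
    simp only [sub, psi, CoprodI.lift_of]
    split_ifs with h
    · rw [ev_cons, toLt_spec]; rfl
    · simp

lemma len_sub (w : List SS) : (sub 0 w).length + (sub 1 w).length = w.length := by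
  induction w with
  | nil => simp [sub]
  | cons s w ih =>
    obtain ⟨i, x⟩ := s
    have : i = 0 ∨ i = 1 := by omega
    rcases this with rfl | rfl
    · simp [sub]; omega
    · simp [sub]; omega

/-- If no letter comes from the second factor. -/
lemma eq_map_of_sub_nil (w : List SS) (h : (sub 1 w).length = 0) : w = (sub 0 w).map (io 0) := by
  induction w with
  | nil => simp [sub]
  | cons s w ih =>
    obtain ⟨i, x⟩ := s
    have : i = 0 ∨ i = 1 := by omega
    rcases this with rfl | rfl
    · simp only [sub, if_true, List.map_cons]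
      have h' : (sub 1 w).length = 0 := by simpa [sub] using h
      rw [← ih h']
      simp [io]
    · simp [sub] at h

/-- If exactly one letter comes from the second factor. -/
lemma decompose (w : List SS) (h : (sub 1 w).length = 1) :
    ∃ a z b, w = a.map (io 0) ++ (io 1 z :: b.map (io 0)) ∧ sub 0 w = a ++ b ∧ sub 1 w = [z] := by
  induction w with
  | nil => simp [sub] at h
  | cons s w ih =>
    obtain ⟨i, x⟩ := s
    have : i = 0 ∨ i = 1 := by omega
    rcases this with rfl | rfl
    · have h' : (sub 1 w).length = 1 := by simpa [sub] using h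
      obtain ⟨a, z, b, h1, h2, h3⟩ := ih h'
      refine ⟨toLt x :: a, z, b, ?_, ?_, ?_⟩
      · rw [List.map_cons, List.cons_append, ← h1]
        simp [io]
      · simp [sub, h2]
      · simp [sub, h3]
    · have h' : (sub 1 w).length = 0 := by simpa [sub] using h
      refine ⟨[], toLt x, sub 0 w, ?_, ?_, ?_⟩
      · rw [← eq_map_of_sub_nil w h']
        simp [io]
      · simp [sub]
      · have : sub 1 w = [] := List.length_eq_zero_iff.mp h'
        simp [sub, this]

/-- Action detecting nontrivial elements to the right of a `t` of the second factor: the first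
factor acts on the sheet `false` of `K × Bool` only, the second one permutes the sheets. -/
def act0 : K →* Function.End (K × Bool) where
  toFun k := fun p => if p.2 then p else (k * p.1, p.2)
  map_one' := by
    funext p
    obtain ⟨x, y⟩ := p
    cases y <;> simp <;> rfl
  map_mul' k k' := by
    funext p
    obtain ⟨x, y⟩ := p
    cases y
    · simp [Function.End.mul_def, mul_assoc]
    · simp [Function.End.mul_def]

/-- Second factor of the action. -/
def act1 : K →* Function.End (K × Bool) where
  toFun k := fun p => if k.e = 1 then p else (p.1, !p.2)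
  map_one' := by
    funext p
    simp
    rfl
  map_mul' k k' := by
    funext p
    obtain ⟨x, y⟩ := p
    rcases Int.units_eq_one_or k.e with h | h <;> rcases Int.units_eq_one_or k'.e with h' | h' <;>
      simp [Function.End.mul_def, h, h']

/-- The action of the free product. -/
def act : FF →* Function.End (K × Bool) :=
  CoprodI.lift (fun j => if j = 0 then act0 else act1)

lemma act_zero (k : K) : act (CoprodI.of (M := GG) (i := 0) k) = act0 k := by
  simp [act, CoprodI.lift_of]
lemma act_one (k : K) : act (CoprodI.of (M := GG) (i := 1) k) = act1 k := by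
  simp [act, CoprodI.lift_of]

lemma right_trivial (g x y : K)
    (h : CoprodI.of (M := GG) (i := 0) x * (CoprodI.of (M := GG) (i := 1) t.val *
      CoprodI.of (M := GG) (i := 0) y) =
      CoprodI.of (M := GG) (i := 0) g * CoprodI.of (M := GG) (i := 1) t.val) : y = 1 := by
  have h1 := congrArg act h
  simp only [map_mul, act_zero, act_one] at h1
  have h2 := congrFun h1 ((1 : K), false)
  have hne : ¬ ((-1 : ℤˣ) = 1) := by decide
  simp [Function.End.mul_def, act0, act1, val, hne] at h2
  exact h2

/-- The test words. -/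
def WW (m n : ℕ) : List SS := (nf2 m n).map (io 0) ++ [io 1 t]

lemma evF_WW (m n : ℕ) : evF (WW m n) =
    CoprodI.of (M := GG) (i := 0) (ev (nf2 m n)) * CoprodI.of (M := GG) (i := 1) t.val := by
  rw [WW, evF_append, evF_io, evF_cons, evF_nil, mul_one]
  rfl

lemma len_WW (m n : ℕ) : (WW m n).length = m + n + 3 := by
  simp [WW, len_nf2]

lemma psi_zero (x y : K) : psi 0 (CoprodI.of (M := GG) (i := 0) x *
    CoprodI.of (M := GG) (i := 1) y) = x := by
  simp [psi, CoprodI.lift_of]
lemma psi_one (x y : K) : psi 1 (CoprodI.of (M := GG) (i := 0) x *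
    CoprodI.of (M := GG) (i := 1) y) = y := by
  simp [psi, CoprodI.lift_of]

lemma lex_map_append {R : SS → SS → Prop} (hR : ∀ i (a a' : {x // x ∈ XX}), R ⟨i, a⟩ ⟨i, a'⟩ ↔ rr a a')
    (z : List SS) {w w' : List Lt} (h : List.Lex rel w w') (hl : w.length = w'.length) :
    List.Lex R (w.map (io 0) ++ z) (w'.map (io 0) ++ z) := by
  induction h with
  | nil => simp at hl
  | cons _ ih =>
    simp only [List.map_cons, List.cons_append]
    exact List.Lex.cons (ih (by simpa using hl))
  | rel h =>
    simp only [List.map_cons, List.cons_append]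
    apply List.Lex.rel
    rw [io, io, hR, rr, toLt_ofLt, toLt_ofLt]
    exact h

/-- `(A)`: the test words with `m + 3 ≤ n` are in the language of the free product. -/
lemma WW_sl {R : SS → SS → Prop} (hR : ∀ i (a a' : {x // x ∈ XX}), R ⟨i, a⟩ ⟨i, a'⟩ ↔ rr a a')
    (m n : ℕ) (h : m + 3 ≤ n) (w' : List SS) (he : evF w' = evF (WW m n)) :
    (WW m n).length < w'.length ∨
      ((WW m n).length = w'.length ∧ (WW m n = w' ∨ List.Lex R (WW m n) w')) := by
  have hsl := sl_nf2 m n h
  have h0 : ev (sub 0 w') = ev (nf2 m n) := by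
    rw [← psi_evF, he, evF_WW, psi_zero]
  have h1 : ev (sub 1 w') = t.val := by
    rw [← psi_evF, he, evF_WW, psi_one]
  have hlen := len_sub w'
  have hl0 : m + n + 2 ≤ (sub 0 w').length := by
    have := hsl _ h0
    rw [SLle, len_nf2] at this
    omega
  have hl1 : 1 ≤ (sub 1 w').length := by
    by_contra hc
    have : sub 1 w' = [] := List.length_eq_zero_iff.mp (by omega)
    rw [this] at h1
    have h2 := congrArg K.e h1
    simp [val] at h2
  rw [len_WW]
  rcases lt_or_eq_of_le (show m + n + 3 ≤ w'.length by omega) with hlt | heq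
  · exact Or.inl hlt
  · refine Or.inr ⟨heq, ?_⟩
    obtain ⟨a, z, b', hw, hs0, hs1⟩ := decompose w' (by omega)
    have hz : z = t := by
      rw [hs1] at h1
      exact val_injective (by simpa using h1)
    subst hz
    have hb : ev b' = 1 := by
      apply right_trivial (ev (nf2 m n)) (ev a) (ev b')
      rw [← evF_WW, ← he, hw, evF_append, evF_cons, evF_io, evF_io]
      rfl
    have ha : ev a = ev (nf2 m n) := by
      rw [← h0, hs0, ev_append, hb, mul_one]
    have hla := hsl a ha
    have hab : a.length + b'.length = m + n + 2 := by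
      have := congrArg List.length hs0
      rw [List.length_append] at this
      omega
    rw [SLle, len_nf2] at hla
    have hb0 : b' = [] := List.length_eq_zero_iff.mp (by omega)
    subst hb0
    rcases hla with hla | ⟨hla, hla' | hla'⟩
    · simp at hab; omega
    · left
      rw [hw, ← hla', WW]
      rfl
    · right
      rw [hw, WW]
      exact lex_map_append hR _ hla' (by rw [len_nf2]; exact hla)

lemma WW_cm (m n : ℕ) (h : m + 3 ≤ n) (w' : List SS) (hc : IsConj (evF (WW m n)) (evF w')) :
    (WW m n).length ≤ w'.length := by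
  have hsl := sl_nf2 m n h
  have hge : m + n + 2 ≤ wl (ev (nf2 m n)) := by
    obtain ⟨w, hw, hl⟩ := wl_spec (ev (nf2 m n))
    have := hsl w hw
    rw [SLle, len_nf2] at this
    omega
  have hg1 : ev (nf2 m n) ≠ 1 := by
    intro h1
    rw [h1, wl_one] at hge
    omega
  have ht1 : t.val ≠ 1 := by
    intro h1
    have h2 := congrArg K.e h1
    simp [val] at h2
  have ht2 : 1 ≤ wl t.val := by
    by_contra hcon
    obtain ⟨w, hw, hl⟩ := wl_spec t.val
    have : w = [] := List.length_eq_zero_iff.mp (by omega)
    rw [this] at hw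
    exact ht1 hw.symm
  rw [evF_WW] at hc
  have h1 := conj_lower _ _ hg1 ht1 _ hc
  have h2 := LL_evF_le w'
  rw [len_WW]
  omega

/-- `(B)`: the test words with `n ≤ m` are not geodesic. -/
lemma WW_not (m n : ℕ) (h : n ≤ m) : ∃ w' : List SS, evF w' = evF (WW m n) ∧
    w'.length < (WW m n).length := by
  refine ⟨(F1 true (m - n) (2 * n)).map (io 0) ++ [io 1 t], ?_, ?_⟩
  · rw [evF_WW, evF_append, evF_io, evF_cons, evF_nil, mul_one, ev_F1, ev_nf2]
    have h1 : (⟨eps true * ((m - n : ℕ) + (2 * n : ℕ)), eps true * ((m - n : ℕ) : ℤ), 1⟩ : K) =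
        ⟨m + n, m - n, 1⟩ := by
      ext
      · simp [eps]; omega
      · simp [eps]; omega
      · simp
    rw [h1]
    rfl
  · rw [len_WW, List.length_append, List.length_map, len_F1]
    simp
    omega

theorem main :
    ¬ (∀ (n : ℕ) (Γ : SimpleGraph (Fin n)) (G : Fin n → Type) [∀ i, Group (G i)]
    (X : ∀ i, Finset (G i))
    (r : ∀ i, {x // x ∈ X i} → {x // x ∈ X i} → Prop),
    (∀ i, IsStrictTotalOrder {x // x ∈ X i} (r i)) →
    (∀ i, ∀ x ∈ X i, x⁻¹ ∈ X i) →
    (∀ i, Subgroup.closure ((X i : Finset (G i)) : Set (G i)) = ⊤) →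
    (∀ i, ∃ (σ : Type), Finite σ ∧ ∃ (M : DFA {x // x ∈ X i} σ),
      ∀ w : List {x // x ∈ X i}, w ∈ M.accepts ↔
        ((∀ w' : List {x // x ∈ X i},
            (w'.map Subtype.val).prod = (w.map Subtype.val).prod →
              w.length < w'.length ∨
                (w.length = w'.length ∧ (w = w' ∨ List.Lex (r i) w w'))) ∧
          ∀ w' : List {x // x ∈ X i},
            IsConj (w.map Subtype.val).prod (w'.map Subtype.val).prod →
              w.length ≤ w'.length)) →
    ∀ (H : Type) [Group H] (φ : Monoid.CoprodI G →* H),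
      Function.Surjective φ →
      φ.ker = Subgroup.normalClosure
        {x : Monoid.CoprodI G | ∃ (i j : Fin n), Γ.Adj i j ∧
          ∃ (a : G i) (b : G j),
            x = Monoid.CoprodI.of (M := G) (i := i) a * Monoid.CoprodI.of (M := G) (i := j) b *
              (Monoid.CoprodI.of (M := G) (i := i) a)⁻¹ *
              (Monoid.CoprodI.of (M := G) (i := j) b)⁻¹} →
    ∃ R : (Σ i, {x // x ∈ X i}) → (Σ i, {x // x ∈ X i}) → Prop,
      IsStrictTotalOrder (Σ i, {x // x ∈ X i}) R ∧
      (∀ i (a b : {x // x ∈ X i}), R ⟨i, a⟩ ⟨i, b⟩ ↔ r i a b) ∧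
      ∃ (σ : Type), Finite σ ∧ ∃ (M : DFA (Σ i, {x // x ∈ X i}) σ),
        ∀ w : List (Σ i, {x // x ∈ X i}), w ∈ M.accepts ↔
          ((∀ w' : List (Σ i, {x // x ∈ X i}),
              (w'.map (fun s : (Σ i, {x // x ∈ X i}) =>
                  φ (Monoid.CoprodI.of (M := G) (i := s.1) s.2.1))).prod =
              (w.map (fun s : (Σ i, {x // x ∈ X i}) =>
                  φ (Monoid.CoprodI.of (M := G) (i := s.1) s.2.1))).prod →
                w.length < w'.length ∨
                  (w.length = w'.length ∧ (w = w' ∨ List.Lex R w w'))) ∧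
            ∀ w' : List (Σ i, {x // x ∈ X i}),
              IsConj
                (w.map (fun s : (Σ i, {x // x ∈ X i}) =>
                  φ (Monoid.CoprodI.of (M := G) (i := s.1) s.2.1))).prod
                (w'.map (fun s : (Σ i, {x // x ∈ X i}) =>
                  φ (Monoid.CoprodI.of (M := G) (i := s.1) s.2.1))).prod →
                w.length ≤ w'.length)) := by
  intro hall
  obtain ⟨R, _, hR, σ, hσ, M, hM⟩ := hall 2 ⊥ GG (fun _ => XX) (fun _ => rr) (fun _ => rr_sto)
    (fun _ => XX_inv) (fun _ => XX_gen) (fun _ => ⟨St, inferInstance, MM, factor_regular⟩)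
    FF (MonoidHom.id FF) Function.surjective_id (by
      rw [MonoidHom.ker_id]
      symm
      rw [eq_bot_iff]
      apply Subgroup.normalClosure_le_normal
      rintro x ⟨i, j, hij, _⟩
      exact absurd hij (by simp))
  have hA : ∀ m n, m + 3 ≤ n → WW m n ∈ M.accepts := by
    intro m n h
    rw [hM]
    exact ⟨fun w' he => WW_sl hR m n h w' he, fun w' hc => WW_cm m n h w' hc⟩
  have hB : ∀ m n, n ≤ m → WW m n ∉ M.accepts := by
    intro m n h hacc
    rw [hM] at hacc
    obtain ⟨w', h1, h2⟩ := WW_not m n h
    rcases hacc.1 w' h1 with h3 | ⟨h3, _⟩ <;> omega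
  have hpig : ∀ i j : ℕ, i < j →
      M.evalFrom M.start ((List.replicate (3 * i) c).map (io 0)) =
        M.evalFrom M.start ((List.replicate (3 * j) c).map (io 0)) → False := by
    intro i j hij heq
    have h1 := hA (3 * i) (3 * i + 3) le_rfl
    apply hB (3 * j) (3 * i + 3) (by omega)
    rw [DFA.mem_accepts] at h1 ⊢
    have hsplit : ∀ m n, M.eval (WW m n) = M.evalFrom (M.evalFrom M.start
        ((List.replicate m c).map (io 0))) ((t :: (List.replicate n c ++ [t])).map (io 0) ++ [io 1 t]) := by
      intro m n
      rw [WW, nf2, List.map_append, List.append_assoc, DFA.eval, DFA.evalFrom_of_append]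
    rw [hsplit] at h1 ⊢
    rw [← heq]
    exact h1
  obtain ⟨i, j, hne, heq⟩ := Finite.exists_ne_map_eq_of_infinite
    (fun i : ℕ => M.evalFrom M.start ((List.replicate (3 * i) c).map (io 0)))
  rcases lt_or_gt_of_ne hne with h | h
  · exact hpig i j h heq
  · exact hpig j i h heq.symm

end Pool.Agent.Work.MP_b2345f_al
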