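import Mathlib

set_option autoImplicit false

namespace Pool.Agent.Work.MP_b2345f_al

/-- The group `K = ℤ² ⋊ ℤ/2`, the nontrivial element of `ℤ/2` negating the second coordinate. -/
@[ext] structure K where
  u : ℤ
  v : ℤ
  e : ℤˣ
deriving DecidableEq

namespace K

instance : Mul K := ⟨fun x y => ⟨x.u + y.u, x.v + (x.e : ℤ) * y.v, x.e * y.e⟩⟩
instance : One K := ⟨⟨0, 0, 1⟩⟩
instance : Inv K := ⟨fun x => ⟨-x.u, -((x.e : ℤ) * x.v), x.e⟩⟩

@[simp] lemma mul_u (x y : K) : (x * y).u = x.u + y.u := rfl
@[simp] lemma mul_v (x y : K) : (x * y).v = x.v + (x.e : ℤ) * y.v := rfl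
@[simp] lemma mul_e (x y : K) : (x * y).e = x.e * y.e := rfl
@[simp] lemma one_u : (1 : K).u = 0 := rfl
@[simp] lemma one_v : (1 : K).v = 0 := rfl
@[simp] lemma one_e : (1 : K).e = 1 := rfl
@[simp] lemma inv_u (x : K) : (x⁻¹).u = -x.u := rfl
@[simp] lemma inv_v (x : K) : (x⁻¹).v = -((x.e : ℤ) * x.v) := rfl
@[simp] lemma inv_e (x : K) : (x⁻¹).e = x.e := rfl

lemma unit_sq (e : ℤˣ) : (e : ℤ) * (e : ℤ) = 1 := by
  rcases Int.units_eq_one_or e with h | h <;> subst h <;> norm_num

instance : Group K :=
  Group.ofLeftAxioms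
    (by
      intro a b c
      ext
      · simp [add_assoc]
      · simp; ring
      · simp [mul_assoc])
    (by
      intro a
      ext <;> simp)
    (by
      intro a
      ext
      · simp
      · simp
      · simp [Int.units_mul_self])

end K

/-- The seven letters. -/
inductive Lt | c | C | d | D | b | B | t
deriving DecidableEq, Fintype

namespace Lt

/-- The value of a letter in `K`. -/
def val : Lt → K
  | c => ⟨1, 1, 1⟩
  | C => ⟨-1, -1, 1⟩
  | d => ⟨1, 0, 1⟩
  | D => ⟨-1, 0, 1⟩
  | b => ⟨0, 1, 1⟩
  | B => ⟨0, -1, 1⟩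
  | t => ⟨0, 0, -1⟩

/-- The rank of a letter in the chosen order. -/
def rank : Lt → ℕ
  | c => 0
  | C => 1
  | d => 2
  | D => 3
  | b => 4
  | B => 5
  | t => 6

/-- The order on letters. -/
def rel (x y : Lt) : Prop := rank x < rank y

instance : DecidableRel rel := fun x y => inferInstanceAs (Decidable (rank x < rank y))

lemma val_injective : Function.Injective val := by
  intro x y h
  cases x <;> cases y <;> first | rfl | (simp [val] at h)

lemma rank_injective : Function.Injective rank := by
  intro x y h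
  cases x <;> cases y <;> first | rfl | (simp [rank] at h)

end Lt

/-- Evaluate a word in the letters. -/
def ev (w : List Lt) : K := (w.map Lt.val).prod

@[simp] lemma ev_nil : ev [] = 1 := rfl
@[simp] lemma ev_cons (x : Lt) (w : List Lt) : ev (x :: w) = x.val * ev w := by
  simp [ev]
@[simp] lemma ev_append (w w' : List Lt) : ev (w ++ w') = ev w * ev w' := by
  simp [ev]

/-- Number of occurrences of `t`. -/
def nt (w : List Lt) : ℕ := w.count Lt.t

@[simp] lemma nt_nil : nt [] = 0 := rfl
@[simp] lemma nt_c (w : List Lt) : nt (Lt.c :: w) = nt w := by simp [nt]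
@[simp] lemma nt_C (w : List Lt) : nt (Lt.C :: w) = nt w := by simp [nt]
@[simp] lemma nt_d (w : List Lt) : nt (Lt.d :: w) = nt w := by simp [nt]
@[simp] lemma nt_D (w : List Lt) : nt (Lt.D :: w) = nt w := by simp [nt]
@[simp] lemma nt_b (w : List Lt) : nt (Lt.b :: w) = nt w := by simp [nt]
@[simp] lemma nt_B (w : List Lt) : nt (Lt.B :: w) = nt w := by simp [nt]
@[simp] lemma nt_t (w : List Lt) : nt (Lt.t :: w) = nt w + 1 := by simp [nt]

lemma abs_u_le (w : List Lt) : |(ev w).u| + nt w ≤ w.length := by
  induction w with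
  | nil => simp
  | cons x w ih =>
    have h := abs_le.mp (le_of_eq (rfl : |(ev w).u| = |(ev w).u|))
    cases x <;> simp [Lt.val] <;> rw [← le_sub_iff_add_le] <;> first | (rw [abs_le]; constructor <;> linarith [h.1, h.2]) | linarith

lemma abs_v_le (w : List Lt) : |(ev w).v| + nt w ≤ w.length := by
  induction w with
  | nil => simp
  | cons x w ih =>
    have h := abs_le.mp (le_of_eq (rfl : |(ev w).v| = |(ev w).v|))
    cases x <;> simp [Lt.val] <;> rw [← le_sub_iff_add_le] <;> first | (rw [abs_le]; constructor <;> linarith [h.1, h.2]) | linarith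

lemma ev_e (w : List Lt) : (ev w).e = (-1) ^ (nt w) := by
  induction w with
  | nil => simp
  | cons x w ih => cases x <;> simp [Lt.val, ih, pow_succ]

/-- For a word without `t`, the difference of the coordinates is bounded by the length. -/
lemma sub_le (w : List Lt) (h : nt w = 0) : |(ev w).u - (ev w).v| ≤ w.length := by
  induction w with
  | nil => simp
  | cons x w ih =>
    cases x
    case t => simp at h
    all_goals
      simp at h
      have ih := ih h
      rw [abs_le] at ih ⊢
      simp [Lt.val]
      constructor <;> linarith [ih.1, ih.2]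

end Pool.Agent.Work.MP_b2345f_al
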