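import Pool.Agent.Work.MP_b2345f_al.Ecl

set_option autoImplicit false

namespace Pool.Agent.Work.MP_b2345f_al

open Lt

/-- The explicit shape of words in the equal-length conjugacy language of `K`. -/
def Shape (w : List Lt) : Prop :=
  (∃ s m k, w = F1 s m k) ∨ (∃ s m k, w = F2 s m k) ∨ (∃ s p q δ, w = nf1 s p q δ) ∨
    (∃ s, w = F5 s)

lemma shape_ecl {w : List Lt} (h : Shape w) : IsSL w ∧ IsCM w := by
  rcases h with ⟨s, m, k, rfl⟩ | ⟨s, m, k, rfl⟩ | ⟨s, p, q, δ, rfl⟩ | ⟨s, rfl⟩
  · exact ⟨sl_F1 s m k, cm_F1 s m k⟩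
  · exact ⟨sl_F2 s m k, cm_F2 s m k⟩
  · exact ⟨sl_nf1 s p q δ, cm_nf1 s p q δ⟩
  · exact ⟨sl_F5 s, cm_F5 s⟩

/-- elements of `ℤ²` with coordinates of the same sign -/
lemma exists_F12 (s : Bool) (u v : ℕ) : ∃ w, Shape w ∧ ev w = ⟨eps s * u, eps s * v, 1⟩ ∧
    w.length = max u v := by
  rcases le_total v u with h | h
  · obtain ⟨k, rfl⟩ := Nat.exists_eq_add_of_le h
    refine ⟨F1 s v k, Or.inl ⟨s, v, k, rfl⟩, ?_, ?_⟩
    · rw [ev_F1]; push_cast; rfl
    · rw [len_F1]; omega
  · obtain ⟨k, rfl⟩ := Nat.exists_eq_add_of_le h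
    refine ⟨F2 s u k, Or.inr (Or.inl ⟨s, u, k, rfl⟩), ?_, ?_⟩
    · rw [ev_F2]; push_cast; rfl
    · rw [len_F2]; omega

/-- elements of the nontrivial coset with `|v| ≤ |u|` -/
lemma exists_nf1 (s : Bool) (u : ℕ) (v : ℤ) (h : |v| ≤ u) : ∃ w, Shape w ∧
    ev w = ⟨eps s * u, eps s * v, -1⟩ ∧ w.length = u + 1 := by
  have hv := abs_le.mp h
  rcases Int.even_or_odd' ((u : ℤ) + v) with ⟨p, hp | hp⟩
  · obtain ⟨p', hp'⟩ := Int.eq_ofNat_of_zero_le (show 0 ≤ p by omega)
    obtain ⟨q', hq'⟩ := Int.eq_ofNat_of_zero_le (show 0 ≤ (u : ℤ) - p by omega)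
    refine ⟨nf1 s p' q' false, Or.inr (Or.inr (Or.inl ⟨s, p', q', false, rfl⟩)), ?_, ?_⟩
    · rw [ev_nf1]
      have h1 : ((p' : ℤ) + q' + (if false = true then 1 else 0)) = u := by simp; omega
      have h2 : ((p' : ℤ) - q') = v := by omega
      rw [h1, h2]
    · rw [len_nf1]
      simp only [Bool.false_eq_true, if_false]
      omega
  · obtain ⟨p', hp'⟩ := Int.eq_ofNat_of_zero_le (show 0 ≤ p by omega)
    obtain ⟨q', hq'⟩ := Int.eq_ofNat_of_zero_le (show 0 ≤ (u : ℤ) - p - 1 by omega)
    refine ⟨nf1 s p' q' true, Or.inr (Or.inr (Or.inl ⟨s, p', q', true, rfl⟩)), ?_, ?_⟩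
    · rw [ev_nf1]
      have h1 : ((p' : ℤ) + q' + (if true = true then 1 else 0)) = u := by simp; omega
      have h2 : ((p' : ℤ) - q') = v := by omega
      rw [h1, h2]
    · rw [len_nf1]
      simp only [if_true]
      omega

lemma exists_sign (u : ℤ) : ∃ (s : Bool) (n : ℕ), u = eps s * n := by
  rcases le_total 0 u with h | h
  · obtain ⟨n, hn⟩ := Int.eq_ofNat_of_zero_le h
    exact ⟨true, n, by simp [eps, hn]⟩
  · obtain ⟨n, hn⟩ := Int.eq_ofNat_of_zero_le (show 0 ≤ -u by omega)
    exact ⟨false, n, by simp [eps]; omega⟩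

lemma ecl_shape {w : List Lt} (h1 : IsSL w) (h2 : IsCM w) : Shape w := by
  rcases Int.units_eq_one_or (ev w).e with he | he
  · -- trivial coset
    obtain ⟨s, u, hu⟩ := exists_sign (ev w).u
    obtain ⟨s', v, hv⟩ := exists_sign (ev w).v
    by_cases hss : s = s' ∨ u = 0 ∨ v = 0
    · -- same sign
      have : ∃ s'' : Bool, (ev w).u = eps s'' * u ∧ (ev w).v = eps s'' * v := by
        rcases hss with rfl | rfl | rfl
        · exact ⟨s, hu, hv⟩
        · exact ⟨s', by simpa using hu, hv⟩
        · exact ⟨s, hu, by simpa using hv⟩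
      obtain ⟨s'', hu', hv'⟩ := this
      obtain ⟨w', hw', hev, _⟩ := exists_F12 s'' u v
      have : w = w' := h1.unique (shape_ecl hw').1 (by rw [hev]; ext <;> simp [hu', hv', he])
      rw [this]
      exact hw'
    · -- opposite signs: contradiction
      exfalso
      push Not at hss
      obtain ⟨hs, hu0, hv0⟩ := hss
      have hs' : eps s' = - eps s := by
        cases s <;> cases s' <;> simp [eps] at hs ⊢
      obtain ⟨w', hw', hev, hlen⟩ := exists_F12 s u v
      have hconj : IsConj (ev w) (ev w') := by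
        have h3 : ev w = ⟨eps s * u, -(eps s * v), 1⟩ := by
          ext
          · exact hu
          · rw [hv, hs']; simp
          · simp [he]
        rw [h3, hev]
        have := conj_neg (eps s * u) (-(eps s * v))
        simpa using this
      have hle := h2 w' hconj
      have hbu := abs_u_le w
      have hbv := abs_v_le w
      rw [hu, abs_eps_mul] at hbu
      rw [hv, abs_eps_mul] at hbv
      by_cases hnt : nt w = 0
      · have hsub := sub_le w hnt
        rw [hu, hv, hs'] at hsub
        have : |eps s * (u : ℤ) - -eps s * v| = u + v := by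
          have := abs_eps_mul s (u + v)
          push_cast at this
          rw [← this]
          congr 1
          ring
        rw [this] at hsub
        omega
      · omega
  · -- nontrivial coset
    obtain ⟨s, u, hu⟩ := exists_sign (ev w).u
    have hes : eps s * eps s = 1 := eps_sq s
    by_cases hle : |(ev w).v| ≤ u
    · have hle' : |eps s * (ev w).v| ≤ u := by
        rw [abs_mul]
        have : |eps s| = 1 := by cases s <;> simp [eps]
        rw [this, one_mul]
        exact hle
      obtain ⟨w', hw', hev, _⟩ := exists_nf1 s u (eps s * (ev w).v) hle'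
      have : w = w' := h1.unique (shape_ecl hw').1 (by
        rw [hev]
        ext
        · exact hu
        · simp only []; rw [← mul_assoc, hes, one_mul]
        · simp [he])
      rw [this]
      exact hw'
    · push Not at hle
      have hbv := abs_v_le w
      have hnt := nt_pos_of_e he
      have hw0 : ev w = ⟨(ev w).u, (ev w).v, -1⟩ := by ext <;> simp [he]
      rcases Int.even_or_odd' (ev w).v with ⟨y, hy | hy⟩
      · -- even
        exfalso
        obtain ⟨w', hw', hev, hlen⟩ := exists_nf1 s u 0 (by simp)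
        have hconj : IsConj (ev w) (ev w') := by
          rw [hev, hw0, hu, hy]
          have := conj_shift (eps s * u) (2 * y) (-y)
          simpa using this
        have hle2 := h2 w' hconj
        omega
      · rcases Nat.eq_zero_or_pos u with rfl | hupos
        · -- u = 0
          by_cases hv1 : |(ev w).v| = 1
          · have : ∃ s', (ev w).v = eps s' := by
              rcases (abs_eq (by norm_num : (0:ℤ) ≤ 1)).mp hv1 with h | h
              · exact ⟨true, by simp [eps, h]⟩
              · exact ⟨false, by simp [eps, h]⟩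
            obtain ⟨s', hs'⟩ := this
            right; right; right
            refine ⟨s', h1.unique (sl_F5 s') ?_⟩
            rw [ev_F5]
            ext
            · simp [hu]
            · exact hs'
            · simp [he]
          · exfalso
            have hconj : IsConj (ev w) (ev (F5 true)) := by
              rw [ev_F5, hw0, hu, hy]
              have := conj_shift (eps s * (0 : ℕ)) (2 * y + 1) (-y)
              simpa [eps] using this
            have hle2 := h2 _ hconj
            rw [len_F5] at hle2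
            omega
        · exfalso
          obtain ⟨w', hw', hev, hlen⟩ := exists_nf1 s u 1 (by simp; omega)
          have hconj : IsConj (ev w) (ev w') := by
            rw [hev, hw0, hu, hy]
            have h3 : eps s * 1 = 2 * y + 1 + 2 * (if s then -y else -y - 1) := by
              cases s <;> simp [eps] <;> ring
            rw [h3]
            exact conj_shift _ _ _
          have hle2 := h2 w' hconj
          omega

theorem ecl_iff (w : List Lt) : (IsSL w ∧ IsCM w) ↔ Shape w :=
  ⟨fun h => ecl_shape h.1 h.2, shape_ecl⟩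

/-- States of the automaton. -/
inductive St
  | st | X (s : Bool) | Y (s : Bool) | Z (s : Bool) | O (a : Lt) | T0 | E | dead
deriving DecidableEq, Fintype

open St in
/-- Transition function. -/
def step : St → Lt → St
  | st, c => X true
  | st, C => X false
  | st, d => Y true
  | st, D => Y false
  | st, b => Z true
  | st, B => Z false
  | st, t => T0
  | X s, a => if a = xl s then X s else if a = yl s then Y s else if a = zl s then O (zl s)
      else if a = t then O (xl s) else dead
  | Y s, a => if a = yl s then O (yl s) else if a = t then O (xl s) else dead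
  | Z s, a => if a = zl s then O (zl s) else if a = t then E else dead
  | O a', a => if a = a' then O a' else dead
  | T0, c => O c
  | T0, C => O C
  | T0, _ => dead
  | E, _ => dead
  | dead, _ => dead

/-- Acceptance from a state: ends in a non-dead state. -/
def acc (q : St) (w : List Lt) : Prop := w.foldl step q ≠ St.dead

lemma acc_nil (q : St) : acc q [] ↔ q ≠ St.dead := Iff.rfl
lemma acc_cons (q : St) (a : Lt) (w : List Lt) : acc q (a :: w) ↔ acc (step q a) w := Iff.rfl

lemma not_acc_dead (w : List Lt) : ¬ acc St.dead w := by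
  induction w with
  | nil => simp [acc_nil]
  | cons a w ih => rw [acc_cons]; exact ih

lemma acc_E {w : List Lt} (h : acc St.E w) : w = [] := by
  cases w with
  | nil => rfl
  | cons a w => rw [acc_cons] at h; exact absurd h (not_acc_dead w)

lemma acc_O (a : Lt) (w : List Lt) : acc (St.O a) w ↔ ∃ n, w = List.replicate n a := by
  induction w with
  | nil => simp only [acc_nil]; exact ⟨fun _ => ⟨0, rfl⟩, fun _ => by simp⟩
  | cons x w ih =>
    rw [acc_cons]
    by_cases hx : x = a
    · subst hx
      simp only [step, if_true]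
      rw [ih]
      constructor
      · rintro ⟨n, rfl⟩; exact ⟨n+1, rfl⟩
      · rintro ⟨n, hn⟩
        rcases n with _ | n
        · simp at hn
        · rw [List.replicate_succ] at hn
          exact ⟨n, (List.cons.inj hn).2⟩
    · simp only [step, if_neg hx]
      constructor
      · intro h; exact absurd h (not_acc_dead w)
      · rintro ⟨n, hn⟩
        rcases n with _ | n
        · simp at hn
        · rw [List.replicate_succ] at hn
          exact absurd (List.cons.inj hn).1 hx

lemma step_st_x (s : Bool) : step St.st (xl s) = St.X s := by cases s <;> rfl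
lemma step_st_y (s : Bool) : step St.st (yl s) = St.Y s := by cases s <;> rfl
lemma step_st_z (s : Bool) : step St.st (zl s) = St.Z s := by cases s <;> rfl
lemma step_st_t : step St.st t = St.T0 := rfl
lemma step_X_x (s : Bool) : step (St.X s) (xl s) = St.X s := by cases s <;> rfl
lemma step_X_y (s : Bool) : step (St.X s) (yl s) = St.Y s := by cases s <;> rfl
lemma step_X_z (s : Bool) : step (St.X s) (zl s) = St.O (zl s) := by cases s <;> rfl
lemma step_X_t (s : Bool) : step (St.X s) t = St.O (xl s) := by cases s <;> rfl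
lemma step_Y_y (s : Bool) : step (St.Y s) (yl s) = St.O (yl s) := by cases s <;> rfl
lemma step_Y_t (s : Bool) : step (St.Y s) t = St.O (xl s) := by cases s <;> rfl
lemma step_Z_z (s : Bool) : step (St.Z s) (zl s) = St.O (zl s) := by cases s <;> rfl
lemma step_Z_t (s : Bool) : step (St.Z s) t = St.E := by cases s <;> rfl
lemma step_T0_x (s : Bool) : step St.T0 (xl s) = St.O (xl s) := by cases s <;> rfl

lemma acc_O_rep (a : Lt) (n : ℕ) : acc (St.O a) (List.replicate n a) := (acc_O a _).mpr ⟨n, rfl⟩

lemma acc_Y_rep (s : Bool) (n : ℕ) : acc (St.Y s) (List.replicate n (yl s)) := by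
  cases n with
  | zero => simp [acc_nil]
  | succ n => rw [List.replicate_succ, acc_cons, step_Y_y]; exact acc_O_rep _ n

lemma acc_Z_rep (s : Bool) (n : ℕ) : acc (St.Z s) (List.replicate n (zl s)) := by
  cases n with
  | zero => simp [acc_nil]
  | succ n => rw [List.replicate_succ, acc_cons, step_Z_z]; exact acc_O_rep _ n

lemma acc_T0_rep (s : Bool) (n : ℕ) : acc St.T0 (List.replicate n (xl s)) := by
  cases n with
  | zero => simp [acc_nil]
  | succ n => rw [List.replicate_succ, acc_cons, step_T0_x]; exact acc_O_rep _ n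

lemma acc_X_pre (s : Bool) (m : ℕ) (w : List Lt) (h : acc (St.X s) w) :
    acc (St.X s) (List.replicate m (xl s) ++ w) := by
  induction m with
  | zero => simpa using h
  | succ m ih => rw [List.replicate_succ, List.cons_append, acc_cons, step_X_x]; exact ih

lemma acc_X_yrep (s : Bool) (n : ℕ) : acc (St.X s) (List.replicate n (yl s)) := by
  cases n with
  | zero => simp [acc_nil]
  | succ n => rw [List.replicate_succ, acc_cons, step_X_y]; exact acc_Y_rep _ n

lemma acc_X_zrep (s : Bool) (n : ℕ) : acc (St.X s) (List.replicate n (zl s)) := by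
  cases n with
  | zero => simp [acc_nil]
  | succ n => rw [List.replicate_succ, acc_cons, step_X_z]; exact acc_O_rep _ n

lemma acc_X_t (s : Bool) (q : ℕ) (δ : Bool) :
    acc (St.X s) ((if δ then [yl s] else []) ++ (t :: List.replicate q (xl s))) := by
  cases δ
  · simp only [Bool.false_eq_true, if_false, List.nil_append]
    rw [acc_cons, step_X_t]; exact acc_O_rep _ q
  · simp only [if_true, List.cons_append, List.nil_append]
    rw [acc_cons, step_X_y, acc_cons, step_Y_t]; exact acc_O_rep _ q

/-- Prefix a word by `m` letters of type `x`, starting from the initial state. -/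
lemma acc_st_pre (s : Bool) (m : ℕ) (w : List Lt) (h : acc (St.X s) w) (h0 : acc St.st w) :
    acc St.st (List.replicate m (xl s) ++ w) := by
  cases m with
  | zero => simpa using h0
  | succ m =>
    rw [List.replicate_succ, List.cons_append, acc_cons, step_st_x]
    exact acc_X_pre s m w h

lemma shape_acc {w : List Lt} (h : Shape w) : acc St.st w := by
  rcases h with ⟨s, m, k, rfl⟩ | ⟨s, m, k, rfl⟩ | ⟨s, p, q, δ, rfl⟩ | ⟨s, rfl⟩
  · apply acc_st_pre _ _ _ (acc_X_yrep s k)
    cases k with
    | zero => simp [acc_nil]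
    | succ k => rw [List.replicate_succ, acc_cons, step_st_y]; exact acc_Y_rep _ k
  · apply acc_st_pre _ _ _ (acc_X_zrep s k)
    cases k with
    | zero => simp [acc_nil]
    | succ k => rw [List.replicate_succ, acc_cons, step_st_z]; exact acc_Z_rep _ k
  · apply acc_st_pre _ _ _ (acc_X_t s q δ)
    cases δ
    · simp only [Bool.false_eq_true, if_false, List.nil_append]
      rw [acc_cons, step_st_t]; exact acc_T0_rep _ q
    · simp only [if_true, List.cons_append, List.nil_append]
      rw [acc_cons, step_st_y, acc_cons, step_Y_t]; exact acc_O_rep _ q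
  · rw [F5, acc_cons, step_st_z, acc_cons, step_Z_t, acc_nil]
    simp

lemma acc_Y {s : Bool} {w : List Lt} (h : acc (St.Y s) w) :
    (∃ n, w = List.replicate n (yl s)) ∨ ∃ n, w = t :: List.replicate n (xl s) := by
  cases w with
  | nil => exact Or.inl ⟨0, rfl⟩
  | cons a w =>
    rw [acc_cons] at h
    by_cases h1 : a = yl s
    · subst h1
      rw [step_Y_y, acc_O] at h
      obtain ⟨n, rfl⟩ := h
      exact Or.inl ⟨n+1, rfl⟩
    · by_cases h2 : a = t
      · subst h2
        rw [step_Y_t, acc_O] at h
        obtain ⟨n, rfl⟩ := h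
        exact Or.inr ⟨n, rfl⟩
      · simp only [step, if_neg h1, if_neg h2] at h
        exact absurd h (not_acc_dead w)

lemma acc_Z {s : Bool} {w : List Lt} (h : acc (St.Z s) w) :
    (∃ n, w = List.replicate n (zl s)) ∨ w = [t] := by
  cases w with
  | nil => exact Or.inl ⟨0, rfl⟩
  | cons a w =>
    rw [acc_cons] at h
    by_cases h1 : a = zl s
    · subst h1
      rw [step_Z_z, acc_O] at h
      obtain ⟨n, rfl⟩ := h
      exact Or.inl ⟨n+1, rfl⟩
    · by_cases h2 : a = t
      · subst h2
        rw [step_Z_t] at h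
        exact Or.inr (by rw [acc_E h])
      · simp only [step, if_neg h1, if_neg h2] at h
        exact absurd h (not_acc_dead w)

lemma acc_T0 {w : List Lt} (h : acc St.T0 w) : ∃ s n, w = List.replicate n (xl s) := by
  cases w with
  | nil => exact ⟨true, 0, rfl⟩
  | cons a w =>
    rw [acc_cons] at h
    cases a
    case c =>
      rw [show step St.T0 c = St.O c from rfl, acc_O] at h
      obtain ⟨n, rfl⟩ := h
      exact ⟨true, n+1, rfl⟩
    case C =>
      rw [show step St.T0 C = St.O C from rfl, acc_O] at h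
      obtain ⟨n, rfl⟩ := h
      exact ⟨false, n+1, rfl⟩
    all_goals exact absurd h (not_acc_dead w)

lemma acc_X {s : Bool} : ∀ {w : List Lt}, acc (St.X s) w →
    (∃ m k, w = F1 s m k) ∨ (∃ m k, w = F2 s m k) ∨ (∃ p q δ, w = nf1 s p q δ) := by
  intro w
  induction w with
  | nil => intro _; exact Or.inl ⟨0, 0, rfl⟩
  | cons a w ih =>
    intro h
    rw [acc_cons] at h
    by_cases h1 : a = xl s
    · subst h1
      rw [step_X_x] at h
      rcases ih h with ⟨m, k, rfl⟩ | ⟨m, k, rfl⟩ | ⟨p, q, δ, rfl⟩
      · exact Or.inl ⟨m+1, k, rfl⟩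
      · exact Or.inr (Or.inl ⟨m+1, k, rfl⟩)
      · exact Or.inr (Or.inr ⟨p+1, q, δ, rfl⟩)
    · by_cases h2 : a = yl s
      · subst h2
        rw [step_X_y] at h
        rcases acc_Y h with ⟨n, rfl⟩ | ⟨n, rfl⟩
        · exact Or.inl ⟨0, n+1, rfl⟩
        · exact Or.inr (Or.inr ⟨0, n, true, rfl⟩)
      · by_cases h3 : a = zl s
        · subst h3
          rw [step_X_z, acc_O] at h
          obtain ⟨n, rfl⟩ := h
          exact Or.inr (Or.inl ⟨0, n+1, rfl⟩)
        · by_cases h4 : a = t
          · subst h4
            rw [step_X_t, acc_O] at h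
            obtain ⟨n, rfl⟩ := h
            exact Or.inr (Or.inr ⟨0, n, false, rfl⟩)
          · simp only [step, if_neg h1, if_neg h2, if_neg h3, if_neg h4] at h
            exact absurd h (not_acc_dead w)

lemma letter_cases (a : Lt) : (∃ s, a = xl s) ∨ (∃ s, a = yl s) ∨ (∃ s, a = zl s) ∨ a = t := by
  cases a
  case c => exact Or.inl ⟨true, rfl⟩
  case C => exact Or.inl ⟨false, rfl⟩
  case d => exact Or.inr (Or.inl ⟨true, rfl⟩)
  case D => exact Or.inr (Or.inl ⟨false, rfl⟩)
  case b => exact Or.inr (Or.inr (Or.inl ⟨true, rfl⟩))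
  case B => exact Or.inr (Or.inr (Or.inl ⟨false, rfl⟩))
  case t => exact Or.inr (Or.inr (Or.inr rfl))

lemma acc_shape {w : List Lt} (h : acc St.st w) : Shape w := by
  cases w with
  | nil => exact Or.inl ⟨true, 0, 0, rfl⟩
  | cons a w =>
    rw [acc_cons] at h
    rcases letter_cases a with ⟨s, rfl⟩ | ⟨s, rfl⟩ | ⟨s, rfl⟩ | rfl
    · rw [step_st_x] at h
      rcases acc_X h with ⟨m, k, rfl⟩ | ⟨m, k, rfl⟩ | ⟨p, q, δ, rfl⟩
      · exact Or.inl ⟨s, m+1, k, rfl⟩
      · exact Or.inr (Or.inl ⟨s, m+1, k, rfl⟩)
      · exact Or.inr (Or.inr (Or.inl ⟨s, p+1, q, δ, rfl⟩))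
    · rw [step_st_y] at h
      rcases acc_Y h with ⟨n, rfl⟩ | ⟨n, rfl⟩
      · exact Or.inl ⟨s, 0, n+1, rfl⟩
      · exact Or.inr (Or.inr (Or.inl ⟨s, 0, n, true, rfl⟩))
    · rw [step_st_z] at h
      rcases acc_Z h with ⟨n, rfl⟩ | rfl
      · exact Or.inr (Or.inl ⟨s, 0, n+1, rfl⟩)
      · exact Or.inr (Or.inr (Or.inr ⟨s, rfl⟩))
    · rw [step_st_t] at h
      obtain ⟨s, n, rfl⟩ := acc_T0 h
      exact Or.inr (Or.inr (Or.inl ⟨s, 0, n, false, rfl⟩))

theorem acc_iff (w : List Lt) : acc St.st w ↔ IsSL w ∧ IsCM w :=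
  ⟨fun h => shape_ecl (acc_shape h), fun h => shape_acc (ecl_shape h.1 h.2)⟩

end Pool.Agent.Work.MP_b2345f_al
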