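import Pool.Agent.Work.MP_b2345f_al.Lex

set_option autoImplicit false

namespace Pool.Agent.Work.MP_b2345f_al

open Lt

/-- Shortlex comparison. -/
def SLle (w w' : List Lt) : Prop :=
  w.length < w'.length ∨ (w.length = w'.length ∧ (w = w' ∨ List.Lex rel w w'))

/-- `w` is the shortlex least representative of its value. -/
def IsSL (w : List Lt) : Prop := ∀ w', ev w' = ev w → SLle w w'

/-- `w` has minimal length in its conjugacy class. -/
def IsCM (w : List Lt) : Prop := ∀ w', IsConj (ev w) (ev w') → w.length ≤ w'.length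

instance : Std.Asymm rel := ⟨fun _ _ h h' => absurd h (not_lt.mpr (le_of_lt h'))⟩

lemma IsSL.unique {w w' : List Lt} (h : IsSL w) (h' : IsSL w') (he : ev w = ev w') : w = w' := by
  rcases h w' he.symm with h1 | ⟨h1, h2 | h2⟩
  · rcases h' w he with h3 | ⟨h3, _⟩ <;> omega
  · exact h2
  · rcases h' w he with h3 | ⟨h3, h4 | h4⟩
    · omega
    · exact h4.symm
    · exact absurd h4 (asymm h2)

lemma conj_inv {g h : K} (hc : IsConj g h) :
    h.u = g.u ∧ h.e = g.e ∧ (g.e = 1 → |h.v| = |g.v|) ∧ (g.e = -1 → ∃ y, h.v = g.v + 2 * y) := by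
  obtain ⟨k, rfl⟩ := isConj_iff.mp hc
  refine ⟨by simp, ?_, ?_, ?_⟩
  · simp only [K.mul_e, K.inv_e]
    rw [mul_comm k.e, mul_assoc, Int.units_mul_self, mul_one]
  · intro hg
    simp only [K.mul_v, K.mul_e, K.inv_v, hg]
    rcases Int.units_eq_one_or k.e with h | h <;> rw [h] <;> simp
  · intro hg
    simp only [K.mul_v, K.mul_e, K.inv_v, hg]
    rcases Int.units_eq_one_or k.e with h | h <;> rw [h]
    · exact ⟨k.v, by simp; ring⟩
    · exact ⟨k.v - g.v, by simp; ring⟩

lemma conj_neg (u v : ℤ) : IsConj (⟨u, v, 1⟩ : K) ⟨u, -v, 1⟩ := by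
  rw [isConj_iff]
  refine ⟨⟨0, 0, -1⟩, ?_⟩
  ext <;> simp

lemma conj_shift (u v y : ℤ) : IsConj (⟨u, v, -1⟩ : K) ⟨u, v + 2 * y, -1⟩ := by
  rw [isConj_iff]
  refine ⟨⟨0, y, 1⟩, ?_⟩
  ext
  · simp
  · simp; ring
  · simp

lemma nt_pos_of_e {w : List Lt} (h : (ev w).e = -1) : 1 ≤ nt w := by
  by_contra hc
  have h0 : nt w = 0 := by omega
  rw [ev_e, h0] at h
  simp at h

lemma ev_rep (a : Lt) (ha : a ≠ t) : ∀ n : ℕ,
    ev (List.replicate n a) = ⟨n * a.val.u, n * a.val.v, 1⟩ := by
  intro n
  induction n with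
  | zero => ext <;> simp
  | succ n ih =>
    rw [List.replicate_succ, ev_cons, ih]
    cases a
    case t => exact absurd rfl ha
    all_goals ext <;> simp [val] <;> ring

/-- `x^m y^k` -/
def F1 (s : Bool) (m k : ℕ) : List Lt := List.replicate m (xl s) ++ List.replicate k (yl s)
/-- `x^m z^k` -/
def F2 (s : Bool) (m k : ℕ) : List Lt := List.replicate m (xl s) ++ List.replicate k (zl s)
/-- `z t` -/
def F5 (s : Bool) : List Lt := [zl s, t]

lemma xl_ne (s : Bool) : xl s ≠ t := by cases s <;> decide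
lemma yl_ne (s : Bool) : yl s ≠ t := by cases s <;> decide
lemma zl_ne (s : Bool) : zl s ≠ t := by cases s <;> decide

lemma ev_F1 (s : Bool) (m k : ℕ) : ev (F1 s m k) = ⟨eps s * (m + k), eps s * m, 1⟩ := by
  rw [F1, ev_append, ev_rep _ (xl_ne s), ev_rep _ (yl_ne s)]
  cases s <;> ext <;> simp [xl, yl, val, eps] <;> ring

lemma ev_F2 (s : Bool) (m k : ℕ) : ev (F2 s m k) = ⟨eps s * m, eps s * (m + k), 1⟩ := by
  rw [F2, ev_append, ev_rep _ (xl_ne s), ev_rep _ (zl_ne s)]
  cases s <;> ext <;> simp [xl, zl, val, eps] <;> ring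

lemma ev_F5 (s : Bool) : ev (F5 s) = ⟨0, eps s, -1⟩ := by
  cases s <;> ext <;> simp [F5, zl, val, eps]

lemma ev_nf1 (s : Bool) (p q : ℕ) (δ : Bool) :
    ev (nf1 s p q δ) = ⟨eps s * (p + q + (if δ then 1 else 0)), eps s * (p - q), -1⟩ := by
  rw [nf1, ev_append, ev_append, ev_cons, ev_rep _ (xl_ne s), ev_rep _ (xl_ne s)]
  cases s <;> cases δ <;> ext <;> simp [xl, yl, val, eps] <;> ring

lemma len_F1 (s : Bool) (m k : ℕ) : (F1 s m k).length = m + k := by simp [F1]
lemma len_F2 (s : Bool) (m k : ℕ) : (F2 s m k).length = m + k := by simp [F2]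
lemma len_F5 (s : Bool) : (F5 s).length = 2 := by simp [F5]
lemma len_nf1 (s : Bool) (p q : ℕ) (δ : Bool) :
    (nf1 s p q δ).length = p + q + (if δ then 1 else 0) + 1 := by
  cases δ <;> simp [nf1] <;> ring

lemma abs_eps_mul (s : Bool) (n : ℕ) : |eps s * (n : ℤ)| = n := by
  cases s <;> simp [eps]

lemma count_xz {s : Bool} {w : List Lt} (h : ∀ z ∈ w, z = xl s ∨ z = zl s) :
    ((w.count (xl s) : ℕ) : ℤ) = eps s * (ev w).u := by
  induction w with
  | nil => simp
  | cons x w ih =>
    have ih := ih (fun z hz => h z (List.mem_cons_of_mem _ hz))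
    rcases h x List.mem_cons_self with rfl | rfl <;>
      cases s <;> simp [xl, zl, val, eps] at ih ⊢ <;> linarith [ih]

lemma t_notMem {w : List Lt} (h : nt w = 0) : t ∉ w := by
  intro hm
  have : 0 < nt w := List.count_pos_iff.mpr hm
  omega

lemma sl_F1 (s : Bool) (m k : ℕ) : IsSL (F1 s m k) := by
  intro w' he
  rw [ev_F1] at he
  have hb := abs_u_le w'
  rw [he] at hb
  have habs : |eps s * ((m : ℤ) + k)| = m + k := by exact_mod_cast abs_eps_mul s (m + k)
  simp only [habs] at hb
  rw [SLle, len_F1]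
  rcases lt_or_eq_of_le (show m + k ≤ w'.length by omega) with hlt | heq
  · exact Or.inl hlt
  · refine Or.inr ⟨heq, ?_⟩
    have h0 : nt w' = 0 := by omega
    have hu : eps s * (ev w').u = m + k := by rw [he]; simp only []; rw [← mul_assoc, eps_sq, one_mul]
    have hv : eps s * (ev w').v = m := by rw [he]; simp only []; rw [← mul_assoc, eps_sq, one_mul]
    have hov : Ov s w' := letters_u s w' (by rw [hu]; omega)
    have hc := hov.count_x h0
    have h2 : ∀ z ∈ w', z = xl s ∨ z = yl s := by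
      intro z hz
      rcases hov z hz with h | h | h
      · exact Or.inl h
      · exact Or.inr h
      · exact absurd (h ▸ hz) (t_notMem h0)
    exact lex_two _ _ (rel_xy s) w' m k h2 (by rw [hv] at hc; exact_mod_cast hc.1) (by omega)

lemma sl_F2 (s : Bool) (m k : ℕ) : IsSL (F2 s m k) := by
  intro w' he
  rw [ev_F2] at he
  have hb := abs_v_le w'
  rw [he] at hb
  have habs : |eps s * ((m : ℤ) + k)| = m + k := by exact_mod_cast abs_eps_mul s (m + k)
  simp only [habs] at hb
  rw [SLle, len_F2]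
  rcases lt_or_eq_of_le (show m + k ≤ w'.length by omega) with hlt | heq
  · exact Or.inl hlt
  · refine Or.inr ⟨heq, ?_⟩
    have h0 : nt w' = 0 := by omega
    have hu : eps s * (ev w').u = m := by rw [he]; simp only []; rw [← mul_assoc, eps_sq, one_mul]
    have hv : eps s * (ev w').v = m + k := by rw [he]; simp only []; rw [← mul_assoc, eps_sq, one_mul]
    have h2 := letters_v s w' h0 (by rw [hv]; omega)
    have hc := count_xz h2
    exact lex_two _ _ (rel_xz s) w' m k h2 (by rw [hu] at hc; exact_mod_cast hc) (by omega)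

lemma sl_nf1 (s : Bool) (p q : ℕ) (δ : Bool) : IsSL (nf1 s p q δ) := by
  intro w' he
  rw [ev_nf1] at he
  have hb := abs_u_le w'
  have hnt : 1 ≤ nt w' := nt_pos_of_e (by rw [he])
  rw [he] at hb
  have habs : |eps s * ((p : ℤ) + q + (if δ then 1 else 0))| = p + q + (if δ then 1 else 0) := by
    have := abs_eps_mul s (p + q + (if δ then 1 else 0))
    push_cast at this
    exact this
  simp only [habs] at hb
  have hb' : p + q + (if δ then 1 else 0) + nt w' ≤ w'.length := by exact_mod_cast hb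
  rw [SLle, len_nf1]
  rcases lt_or_eq_of_le (show p + q + (if δ then 1 else 0) + 1 ≤ w'.length by omega) with hlt | heq
  · exact Or.inl hlt
  · refine Or.inr ⟨heq, ?_⟩
    have h0 : nt w' = 1 := by omega
    have hu : eps s * (ev w').u = p + q + (if δ then 1 else 0) := by
      rw [he]; simp only []; rw [← mul_assoc, eps_sq, one_mul]
    have hv : eps s * (ev w').v = p - q := by rw [he]; simp only []; rw [← mul_assoc, eps_sq, one_mul]
    have hov : Ov s w' := letters_u s w' (by rw [hu, h0, ← heq]; push_cast; omega)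
    exact lex_one_t s w' p q δ hov h0 hu hv

lemma sl_F5 (s : Bool) : IsSL (F5 s) := by
  intro w' he
  rw [ev_F5] at he
  have hb := abs_v_le w'
  have hnt : 1 ≤ nt w' := nt_pos_of_e (by rw [he])
  rw [he] at hb
  have habs : |eps s| = 1 := by cases s <;> simp [eps]
  simp only [habs] at hb
  rw [SLle, len_F5]
  rcases lt_or_eq_of_le (show 2 ≤ w'.length by omega) with hlt | heq
  · exact Or.inl hlt
  · refine Or.inr ⟨heq, ?_⟩
    match w', heq with
    | [a1, a2], _ =>
      have h1 : (ev [a1, a2]).u = 0 := by rw [he]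
      have h2 : (ev [a1, a2]).v = eps s := by rw [he]
      have h3 : (ev [a1, a2]).e = -1 := by rw [he]
      clear he hb habs hnt
      cases a1 <;> cases a2 <;> cases s <;>
        simp [val, eps] at h1 h2 h3 <;>
        first
          | (exfalso; omega)
          | (exfalso; revert h3; decide)
          | (left; rfl)
          | (right; apply List.Lex.rel; simp [rel, rank, zl])

lemma cm_F1 (s : Bool) (m k : ℕ) : IsCM (F1 s m k) := by
  intro w' hc
  have h := conj_inv hc
  rw [ev_F1] at h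
  have hb := abs_u_le w'
  rw [h.1] at hb
  have habs : |eps s * ((m : ℤ) + k)| = m + k := by exact_mod_cast abs_eps_mul s (m + k)
  simp only [habs] at hb
  rw [len_F1]
  omega

lemma cm_F2 (s : Bool) (m k : ℕ) : IsCM (F2 s m k) := by
  intro w' hc
  have h := conj_inv hc
  rw [ev_F2] at h
  have hb := abs_v_le w'
  rw [h.2.2.1 rfl] at hb
  have habs : |eps s * ((m : ℤ) + k)| = m + k := by exact_mod_cast abs_eps_mul s (m + k)
  simp only [habs] at hb
  rw [len_F2]
  omega

lemma cm_nf1 (s : Bool) (p q : ℕ) (δ : Bool) : IsCM (nf1 s p q δ) := by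
  intro w' hc
  have h := conj_inv hc
  rw [ev_nf1] at h
  have hb := abs_u_le w'
  have hnt : 1 ≤ nt w' := nt_pos_of_e h.2.1
  rw [h.1] at hb
  have habs : |eps s * ((p : ℤ) + q + (if δ then 1 else 0))| = p + q + (if δ then 1 else 0) := by
    have := abs_eps_mul s (p + q + (if δ then 1 else 0))
    push_cast at this
    exact this
  simp only [habs] at hb
  have hb' : p + q + (if δ then 1 else 0) + nt w' ≤ w'.length := by exact_mod_cast hb
  rw [len_nf1]
  omega

lemma cm_F5 (s : Bool) : IsCM (F5 s) := by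
  intro w' hc
  have h := conj_inv hc
  rw [ev_F5] at h
  have hb := abs_v_le w'
  have hnt : 1 ≤ nt w' := nt_pos_of_e h.2.1
  obtain ⟨y, hy⟩ := h.2.2.2 rfl
  have h1 : 1 ≤ |(ev w').v| := by
    rw [hy]
    apply Int.one_le_abs
    cases s <;> simp [eps] <;> omega
  rw [len_F5]
  omega

end Pool.Agent.Work.MP_b2345f_al
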