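import Pool.Agent.Work.MP_b2345f_al.Dfa

set_option autoImplicit false

namespace Pool.Agent.Work.MP_b2345f_al

open Lt Monoid

/-- The constant family. -/
abbrev GG : Fin 2 → Type := fun _ => K

/-- The free product of two copies of `K`. -/
abbrev FF : Type := CoprodI GG

lemma exists_word (k : K) : ∃ w : List Lt, ev w = k := by
  have hA : ∀ u v : ℤ, ∃ w : List Lt, ev w = ⟨u, v, 1⟩ := by
    intro u v
    obtain ⟨s, n, hu⟩ := exists_sign u
    obtain ⟨s', n', hv⟩ := exists_sign v
    refine ⟨List.replicate n (yl s) ++ List.replicate n' (zl s'), ?_⟩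
    rw [ev_append, ev_rep _ (yl_ne s), ev_rep _ (zl_ne s'), hu, hv]
    cases s <;> cases s' <;> ext <;> simp [yl, zl, val, eps]
  rcases Int.units_eq_one_or k.e with h | h
  · obtain ⟨w, hw⟩ := hA k.u k.v
    exact ⟨w, by rw [hw]; ext <;> simp [h]⟩
  · obtain ⟨w, hw⟩ := hA k.u k.v
    exact ⟨w ++ [t], by rw [ev_append, hw]; ext <;> simp [h, val]⟩

/-- Word length in `K`. -/
noncomputable def wl (k : K) : ℕ := sInf {n | ∃ w : List Lt, ev w = k ∧ w.length = n}

lemma wl_spec (k : K) : ∃ w : List Lt, ev w = k ∧ w.length = wl k := by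
  have hne : {n | ∃ w : List Lt, ev w = k ∧ w.length = n}.Nonempty := by
    obtain ⟨w, hw⟩ := exists_word k
    exact ⟨w.length, w, hw, rfl⟩
  exact Nat.sInf_mem hne

lemma wl_le (w : List Lt) : wl (ev w) ≤ w.length := Nat.sInf_le ⟨w, rfl, rfl⟩

lemma wl_one : wl 1 = 0 := by
  have := wl_le []
  simpa using this

lemma wl_mul (k k' : K) : wl (k * k') ≤ wl k + wl k' := by
  obtain ⟨w, hw, hl⟩ := wl_spec k
  obtain ⟨w', hw', hl'⟩ := wl_spec k'
  have := wl_le (w ++ w')
  rw [ev_append, hw, hw', List.length_append, hl, hl'] at this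
  exact this

lemma wl_val (a : Lt) : wl a.val ≤ 1 := by
  have := wl_le [a]
  simpa using this

/-- Length of a normal form. -/
noncomputable def Lw (w : CoprodI.Word GG) : ℕ := (w.toList.map (fun l => wl l.2)).sum

/-- Length function on the free product. -/
noncomputable def LL (x : FF) : ℕ := Lw (CoprodI.Word.equiv x)

lemma Lw_rcons {i : Fin 2} (p : CoprodI.Word.Pair GG i) :
    Lw (CoprodI.Word.rcons p) = wl p.head + Lw p.tail := by
  unfold CoprodI.Word.rcons
  split_ifs with h
  · rw [h, wl_one, zero_add]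
  · simp [Lw, CoprodI.Word.cons]

lemma Lw_smul (i : Fin 2) (k : K) (w : CoprodI.Word GG) :
    Lw (CoprodI.of (M := GG) (i := i) k • w) ≤ wl k + Lw w := by
  rw [CoprodI.Word.of_smul_def, Lw_rcons]
  have h1 : w = CoprodI.Word.rcons (CoprodI.Word.equivPair i w) := by
    rw [← CoprodI.Word.equivPair_symm, Equiv.symm_apply_apply]
  have h2 : Lw w = wl (CoprodI.Word.equivPair i w).head + Lw (CoprodI.Word.equivPair i w).tail := by
    rw [← Lw_rcons, ← h1]
  rw [h2]
  have := wl_mul k (CoprodI.Word.equivPair i w).head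
  simp only []
  omega

lemma LL_def (x : FF) : LL x = Lw (x • (CoprodI.Word.empty : CoprodI.Word GG)) := rfl

lemma LL_one : LL 1 = 0 := by
  rw [LL_def, one_smul]
  simp [Lw]

lemma LL_of_mul (i : Fin 2) (k : K) (x : FF) :
    LL (CoprodI.of (M := GG) (i := i) k * x) ≤ wl k + LL x := by
  rw [LL_def, mul_smul]
  exact Lw_smul i k _

lemma LL_list (l : List (Σ _ : Fin 2, K)) (y : FF) :
    LL ((l.map (fun s => CoprodI.of (M := GG) (i := s.1) s.2)).prod * y) ≤
      (l.map (fun s => wl s.2)).sum + LL y := by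
  induction l with
  | nil => simp
  | cons a l ih =>
    simp only [List.map_cons, List.prod_cons, List.sum_cons, mul_assoc]
    have := LL_of_mul a.1 a.2 ((l.map (fun s => CoprodI.of (M := GG) (i := s.1) s.2)).prod * y)
    omega

lemma LL_mul (x y : FF) : LL (x * y) ≤ LL x + LL y := by
  have hx : x = (((CoprodI.Word.equiv x).toList).map
      (fun s => CoprodI.of (M := GG) (i := s.1) s.2)).prod :=
    ((CoprodI.Word.equiv (M := GG)).symm_apply_apply x).symm
  have := LL_list ((CoprodI.Word.equiv x).toList) y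
  rw [← hx] at this
  exact this

lemma LL_pow (x : FF) (n : ℕ) : LL (x ^ n) ≤ n * LL x := by
  induction n with
  | zero => simp [LL_one]
  | succ n ih =>
    rw [pow_succ]
    have := LL_mul (x ^ n) x
    calc LL (x ^ n * x) ≤ LL (x ^ n) + LL x := this
      _ ≤ n * LL x + LL x := by omega
      _ = (n + 1) * LL x := by ring

lemma exists_alt (g s : K) (hg : g ≠ 1) (hs : s ≠ 1) (n : ℕ) :
    ∃ w : CoprodI.Word GG, w.fstIdx ≠ some 1 ∧
      w.prod = (CoprodI.of (M := GG) (i := 0) g * CoprodI.of (M := GG) (i := 1) s) ^ n ∧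
      Lw w = n * (wl g + wl s) := by
  induction n with
  | zero =>
    refine ⟨CoprodI.Word.empty, ?_, ?_, ?_⟩
    · simp [CoprodI.Word.fstIdx]
    · simp
    · simp [Lw]
  | succ n ih =>
    obtain ⟨w, h1, h2, h3⟩ := ih
    have h4 : (CoprodI.Word.cons (i := 1) (M := GG) s w h1 hs).fstIdx ≠ some 0 := by
      rw [CoprodI.Word.fstIdx_cons]
      decide
    refine ⟨CoprodI.Word.cons (i := 0) (M := GG) g (CoprodI.Word.cons (i := 1) s w h1 hs) h4 hg,
      ?_, ?_, ?_⟩
    · rw [CoprodI.Word.fstIdx_cons]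
      decide
    · rw [CoprodI.Word.prod_cons, CoprodI.Word.prod_cons, h2, pow_succ', mul_assoc]
    · have : Lw (CoprodI.Word.cons (i := 0) (M := GG) g
          (CoprodI.Word.cons (i := 1) s w h1 hs) h4 hg) = wl g + (wl s + Lw w) := by
        simp [Lw, CoprodI.Word.cons]
      rw [this, h3]
      ring

lemma LL_alt (g s : K) (hg : g ≠ 1) (hs : s ≠ 1) (n : ℕ) :
    LL ((CoprodI.of (M := GG) (i := 0) g * CoprodI.of (M := GG) (i := 1) s) ^ n) =
      n * (wl g + wl s) := by
  obtain ⟨w, _, h2, h3⟩ := exists_alt g s hg hs n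
  rw [← h2, ← h3, LL]
  congr 1
  exact (CoprodI.Word.equiv (M := GG)).apply_symm_apply w

theorem conj_lower (g s : K) (hg : g ≠ 1) (hs : s ≠ 1) (x : FF)
    (hc : IsConj (CoprodI.of (M := GG) (i := 0) g * CoprodI.of (M := GG) (i := 1) s) x) :
    wl g + wl s ≤ LL x := by
  obtain ⟨p, hp⟩ := isConj_iff.mp hc
  by_contra hlt
  push Not at hlt
  set y : FF := CoprodI.of (M := GG) (i := 0) g * CoprodI.of (M := GG) (i := 1) s with hy
  set C := LL p⁻¹ + LL p with hC
  have key : ∀ n : ℕ, n * (wl g + wl s) ≤ C + n * LL x := by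
    intro n
    have h1 : y ^ n = p⁻¹ * x ^ n * p := by
      rw [← hp, conj_pow]
      group
    have h2 : LL (y ^ n) = n * (wl g + wl s) := LL_alt g s hg hs n
    have h3 := LL_mul (p⁻¹ * x ^ n) p
    have h4 := LL_mul p⁻¹ (x ^ n)
    have h5 := LL_pow x n
    rw [← h1, h2] at h3
    omega
  have h6 := key (C + 1)
  have h7 : (C + 1) * (LL x + 1) ≤ (C + 1) * (wl g + wl s) := Nat.mul_le_mul_left _ hlt
  have h8 : (C + 1) * (LL x + 1) = (C + 1) * LL x + (C + 1) := by ring
  omega

end Pool.Agent.Work.MP_b2345f_al
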