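import Pool.Agent.Work.MP_b2345f_al.Basic

set_option autoImplicit false

namespace Pool.Agent.Work.MP_b2345f_al

open Lt

/-- Lexicographic comparison (intended for words of equal length). -/
def LexLe (w w' : List Lt) : Prop := w = w' ∨ List.Lex rel w w'

lemma LexLe.refl (w : List Lt) : LexLe w w := Or.inl rfl

lemma LexLe.cons (a : Lt) {w w' : List Lt} (h : LexLe w w') : LexLe (a :: w) (a :: w') := by
  rcases h with h | h
  · exact Or.inl (by rw [h])
  · exact Or.inr (List.Lex.cons h)

lemma LexLe.of_rel {a a' : Lt} (h : rel a a') (w w' : List Lt) : LexLe (a :: w) (a' :: w') :=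
  Or.inr (List.Lex.rel h)

/-- `x`-type letters. -/
def xl : Bool → Lt
  | true => c
  | false => C
/-- `y`-type letters. -/
def yl : Bool → Lt
  | true => d
  | false => D
/-- `z`-type letters. -/
def zl : Bool → Lt
  | true => b
  | false => B
/-- The sign. -/
def eps : Bool → ℤ
  | true => 1
  | false => -1

lemma eps_sq (s : Bool) : eps s * eps s = 1 := by cases s <;> rfl

theorem lex_two (x y : Lt) (hxy : rel x y) : ∀ (w : List Lt) (m k : ℕ),
    (∀ z ∈ w, z = x ∨ z = y) → w.count x = m → w.length = m + k →
    LexLe (List.replicate m x ++ List.replicate k y) w := by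
  have hne : y ≠ x := by
    rintro rfl
    exact absurd hxy (lt_irrefl _)
  intro w
  induction w with
  | nil =>
    intro m k _ hc hl
    simp at hc hl
    obtain ⟨rfl, rfl⟩ : m = 0 ∧ k = 0 := by omega
    exact Or.inl rfl
  | cons z w ih =>
    intro m k hz hc hl
    have hz' : ∀ z ∈ w, z = x ∨ z = y := fun z' h => hz z' (List.mem_cons_of_mem _ h)
    rcases hz z List.mem_cons_self with rfl | rfl
    · rw [List.count_cons_self] at hc
      obtain ⟨m', rfl⟩ : ∃ m', m = m' + 1 := ⟨w.count z, hc.symm⟩
      rw [List.replicate_succ, List.cons_append]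
      apply LexLe.cons
      apply ih m' k hz' (by omega)
      simp at hl
      omega
    · rw [List.count_cons_of_ne hne] at hc
      simp at hl
      rcases m with _ | m'
      · obtain ⟨k', rfl⟩ : ∃ k', k = k' + 1 := ⟨w.length, by omega⟩
        simp only [List.replicate_zero, List.nil_append]
        rw [List.replicate_succ]
        apply LexLe.cons
        simpa using ih 0 k' hz' hc (by omega)
      · rw [List.replicate_succ, List.cons_append]
        exact LexLe.of_rel hxy _ _

/-- If all non-`t` letters contribute extremally to the first coordinate, they are of type `x`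
or `y`. -/
lemma letters_u (s : Bool) : ∀ (w : List Lt), (w.length : ℤ) ≤ eps s * (ev w).u + nt w →
    ∀ z ∈ w, z = xl s ∨ z = yl s ∨ z = t := by
  intro w
  induction w with
  | nil => intro _ z hz; simp at hz
  | cons x w ih =>
    intro h z hz
    have hb := abs_le.mp (by linarith [abs_u_le w] : |(ev w).u| ≤ (w.length : ℤ) - nt w)
    have key : (w.length : ℤ) ≤ eps s * (ev w).u + nt w ∧ (x = xl s ∨ x = yl s ∨ x = t) := by
      cases s <;> cases x <;> simp [eps, val, xl, yl] at h ⊢ <;> linarith [hb.1, hb.2]
    rcases List.mem_cons.mp hz with rfl | hz'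
    · exact key.2
    · exact ih key.1 z hz'

/-- If all letters contribute extremally to the second coordinate (no `t`), they are of type `x`
or `z`. -/
lemma letters_v (s : Bool) : ∀ (w : List Lt), nt w = 0 → (w.length : ℤ) ≤ eps s * (ev w).v →
    ∀ z ∈ w, z = xl s ∨ z = zl s := by
  intro w
  induction w with
  | nil => intro _ _ z hz; simp at hz
  | cons x w ih =>
    intro h0 h z hz
    have hb := abs_le.mp (by linarith [abs_v_le w] : |(ev w).v| ≤ (w.length : ℤ) - nt w)
    have key : nt w = 0 ∧ (w.length : ℤ) ≤ eps s * (ev w).v ∧ (x = xl s ∨ x = zl s) := by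
      cases x
      case t => simp at h0
      all_goals
        simp at h0
        cases s <;> simp [eps, val, xl, zl, h0] at h hb ⊢ <;> linarith [hb.1, hb.2]
    rcases List.mem_cons.mp hz with rfl | hz'
    · exact key.2.2
    · exact ih key.1 key.2.1 z hz'

/-- words over `x, y, t` -/
def Ov (s : Bool) (w : List Lt) : Prop := ∀ z ∈ w, z = xl s ∨ z = yl s ∨ z = t

lemma Ov.tail {s : Bool} {a : Lt} {w : List Lt} (h : Ov s (a :: w)) : Ov s w :=
  fun z hz => h z (List.mem_cons_of_mem _ hz)

lemma Ov.absv {s : Bool} {w : List Lt} (h : Ov s w) : |(ev w).v| ≤ eps s * (ev w).u := by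
  induction w with
  | nil => simp
  | cons x w ih =>
    have ih := abs_le.mp (ih h.tail)
    rw [abs_le]
    rcases h x List.mem_cons_self with rfl | rfl | rfl <;> cases s <;>
      simp [xl, yl, val, eps] at ih ⊢ <;> constructor <;> linarith [ih.1, ih.2]

/-- counting lemma for words over `x, y` -/
lemma Ov.count_x {s : Bool} {w : List Lt} (h : Ov s w) (h0 : nt w = 0) :
    ((w.count (xl s) : ℕ) : ℤ) = eps s * (ev w).v ∧ (w.length : ℤ) = eps s * (ev w).u := by
  induction w with
  | nil => simp
  | cons x w ih =>
    rcases h x List.mem_cons_self with rfl | rfl | rfl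
    · have h0' : nt w = 0 := by cases s <;> simpa [xl] using h0
      have ih := ih h.tail h0'
      cases s <;> simp [xl, val, eps] at ih ⊢ <;> constructor <;> linarith [ih.1, ih.2]
    · have h0' : nt w = 0 := by cases s <;> simpa [yl] using h0
      have ih := ih h.tail h0'
      cases s <;> simp [xl, yl, val, eps] at ih ⊢ <;> constructor <;> linarith [ih.1, ih.2]
    · simp at h0

/-- The normal forms with one `t`: `x^p t x^q`, `x^p y t x^q`. -/
def nf1 (s : Bool) (p q : ℕ) (δ : Bool) : List Lt :=
  List.replicate p (xl s) ++ ((if δ then [yl s] else []) ++ (t :: List.replicate q (xl s)))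

lemma nf1_succ (s : Bool) (p q : ℕ) (δ : Bool) : nf1 s (p+1) q δ = xl s :: nf1 s p q δ := by
  simp [nf1, List.replicate_succ]

lemma rel_xy (s : Bool) : rel (xl s) (yl s) := by cases s <;> simp [rel, xl, yl, rank]
lemma rel_xz (s : Bool) : rel (xl s) (zl s) := by cases s <;> simp [rel, xl, zl, rank]
lemma rel_xt (s : Bool) : rel (xl s) t := by cases s <;> simp [rel, xl, rank]
lemma rel_yt (s : Bool) : rel (yl s) t := by cases s <;> simp [rel, yl, rank]

theorem lex_one_t (s : Bool) : ∀ (w : List Lt) (p q : ℕ) (δ : Bool),
    Ov s w → nt w = 1 → eps s * (ev w).u = p + q + (if δ then 1 else 0) →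
    eps s * (ev w).v = p - q → LexLe (nf1 s p q δ) w := by
  intro w
  induction w with
  | nil => intro p q δ _ h; simp at h
  | cons x w ih =>
    intro p q δ ho h1 hu hv
    have habs := abs_le.mp ho.tail.absv
    rcases ho x List.mem_cons_self with rfl | rfl | rfl
    · -- x
      have h1' : nt w = 1 := by cases s <;> simpa [xl] using h1
      rcases p with _ | p
      · exfalso
        cases s <;> cases δ <;> simp [xl, val, eps] at hu hv habs <;> linarith [habs.1, habs.2]
      · rw [nf1_succ]
        apply LexLe.cons
        apply ih p q δ ho.tail h1'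
        · cases s <;> simp [xl, val, eps] at hu ⊢ <;> linarith
        · cases s <;> simp [xl, val, eps] at hv ⊢ <;> linarith
    · -- y
      have h1' : nt w = 1 := by cases s <;> simpa [yl] using h1
      rcases p with _ | p
      · cases δ
        · exfalso
          cases s <;> simp [yl, val, eps] at hu hv habs <;> linarith [habs.1, habs.2]
        · have : nf1 s 0 q true = yl s :: nf1 s 0 q false := by simp [nf1]
          rw [this]
          apply LexLe.cons
          apply ih 0 q false ho.tail h1'
          · cases s <;> simp [yl, val, eps] at hu ⊢ <;> linarith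
          · cases s <;> simp [yl, val, eps] at hv ⊢ <;> linarith
      · rw [nf1_succ]
        exact LexLe.of_rel (rel_xy s) _ _
    · -- t
      have h0 : nt w = 0 := by simpa using h1
      rcases p with _ | p
      · cases δ
        · -- w = t x^q
          have hc := ho.tail.count_x h0
          have : nf1 s 0 q false = t :: List.replicate q (xl s) := by simp [nf1]
          rw [this]
          apply LexLe.cons
          have h2 : w.count (xl s) = q := by
            have : ((w.count (xl s) : ℕ) : ℤ) = q := by
              rw [hc.1]
              cases s <;> simp [val, eps] at hv ⊢ <;> linarith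
            exact_mod_cast this
          have h3 : w.length = q := by
            have : ((w.length : ℕ) : ℤ) = q := by
              rw [hc.2]
              cases s <;> simp [val, eps] at hu ⊢ <;> linarith
            exact_mod_cast this
          left
          symm
          rw [List.eq_replicate_iff]
          refine ⟨h3, ?_⟩
          have h4 : w.count (xl s) = w.length := by rw [h2, h3]
          intro z hz
          exact (List.count_eq_length.mp h4 z hz).symm
        · have : nf1 s 0 q true = yl s :: nf1 s 0 q false := by simp [nf1]
          rw [this]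
          exact LexLe.of_rel (rel_yt s) _ _
      · rw [nf1_succ]
        exact LexLe.of_rel (rel_xt s) _ _

/-- The words `c^m t c^n t`. -/
def nf2 (m n : ℕ) : List Lt :=
  List.replicate m c ++ (t :: (List.replicate n c ++ [t]))

lemma nf2_succ (m n : ℕ) : nf2 (m+1) n = c :: nf2 m n := by
  simp [nf2, List.replicate_succ]

theorem lex_two_t : ∀ (w : List Lt) (m n : ℕ), Ov true w → nt w = 2 →
    (ev w).u = m + n → (ev w).v = m - n → LexLe (nf2 m n) w := by
  intro w
  induction w with
  | nil => intro m n _ h; simp at h
  | cons x w ih =>
    intro m n ho h2 hu hv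
    have habs := abs_le.mp ho.tail.absv
    rcases ho x List.mem_cons_self with rfl | rfl | rfl
    · have h2' : nt w = 2 := by simpa [xl] using h2
      rcases m with _ | m
      · exfalso
        simp [xl, val, eps] at hu hv habs
        linarith [habs.1, habs.2]
      · rw [nf2_succ]
        apply LexLe.cons
        apply ih m n ho.tail h2'
        · simp [xl, val] at hu ⊢; linarith
        · simp [xl, val] at hv ⊢; linarith
    · rcases m with _ | m
      · exfalso
        simp [yl, val, eps] at hu hv habs
        linarith [habs.1, habs.2]
      · rw [nf2_succ]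
        exact LexLe.of_rel (rel_xy true) _ _
    · have h1 : nt w = 1 := by simpa using h2
      rcases m with _ | m
      · have : nf2 0 n = t :: nf1 true n 0 false := by simp [nf2, nf1, xl]
        rw [this]
        apply LexLe.cons
        apply lex_one_t true w n 0 false ho.tail h1
        · simp [val, eps] at hu ⊢; linarith
        · simp [val, eps] at hv ⊢; linarith
      · rw [nf2_succ]
        exact LexLe.of_rel (rel_xt true) _ _

end Pool.Agent.Work.MP_b2345f_al
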